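import Pool.Agent.U62.BM.Lin
import Pool.Agent.X280.BP.Final

/-!
# The scales `exp ((log y) ^ t)`
-/

set_option autoImplicit false
set_option linter.unusedSectionVars false

namespace Pool.Agent.U62.BM

open Finset Filter Topology Pool.Agent.Y722.HS Pool.Agent.X280.BP MeasureTheory ProbabilityTheory

/-- The integral part of `exp ((log y) ^ t)`. -/
noncomputable def cut (t : ℝ) (y : ℕ) : ℕ := ⌊Real.exp (Real.log y ^ t)⌋₊

theorem log_large : ∀ᶠ y : ℕ in atTop, 1 ≤ Real.log y := by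
  have h := Real.tendsto_log_atTop.comp tendsto_natCast_atTop_atTop
  exact h.eventually_ge_atTop 1

theorem cut_mono {y : ℕ} (hy : 1 ≤ Real.log y) {s t : ℝ} (h : s ≤ t) : cut s y ≤ cut t y := by
  unfold cut
  apply Nat.floor_mono
  apply Real.exp_le_exp.2
  exact Real.rpow_le_rpow_of_exponent_le hy h

theorem cut_le {y : ℕ} (hy : 1 ≤ Real.log y) {t : ℝ} (h : t ≤ 1) : cut t y ≤ y := by
  have hy0 : y ≠ 0 := by
    rintro rfl
    norm_num at hy
  unfold cut
  apply Nat.floor_le_of_le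
  calc Real.exp (Real.log y ^ t) ≤ Real.exp (Real.log y ^ (1 : ℝ)) := by
        apply Real.exp_le_exp.2
        exact Real.rpow_le_rpow_of_exponent_le hy h
    _ = y := by
        rw [Real.rpow_one, Real.exp_log (by exact_mod_cast Nat.pos_of_ne_zero hy0)]

theorem cut_one {y : ℕ} (hy : 1 ≤ y) : cut 1 y = y := by
  unfold cut
  rw [Real.rpow_one, Real.exp_log (by exact_mod_cast hy), Nat.floor_natCast]

theorem cut_near : ∃ K : ℝ, 0 ≤ K ∧ ∀ (y : ℕ) (t : ℝ), 1 ≤ Real.log y → 0 ≤ t →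
    |LL 0 (cut t y + 1) - t * Lg y| ≤ K ∧ (3 ≤ cut t y → |Lg (cut t y) - t * Lg y| ≤ 2) := by
  obtain ⟨C1, hC1, hLL⟩ := LL_Lg
  refine ⟨C1 + 2, by linarith, fun y t hy ht => ?_⟩
  have hlog0 : 0 < Real.log y := by linarith
  set x : ℝ := Real.log y ^ t with hx
  have hx1 : 1 ≤ x := Real.one_le_rpow hy ht
  have hx0 : 0 < x := by linarith
  have hlx : Real.log x = t * Lg y := by
    rw [hx, Real.log_rpow hlog0]
    rfl
  have hlx0 : 0 ≤ Real.log x := Real.log_nonneg hx1
  have he : cut t y = ⌊Real.exp x⌋₊ := rfl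
  have h1 : (cut t y : ℝ) ≤ Real.exp x := by
    rw [he]
    exact Nat.floor_le (Real.exp_pos x).le
  have h2 : Real.exp x < cut t y + 1 := by
    rw [he]
    exact Nat.lt_floor_add_one _
  have hex : Real.exp 1 ≤ Real.exp x := Real.exp_le_exp.2 hx1
  have he1 := Real.exp_one_gt_d9
  have key : 3 ≤ cut t y → |Lg (cut t y) - t * Lg y| ≤ 2 := by
    intro h3
    have hN3 : (3 : ℝ) ≤ cut t y := by exact_mod_cast h3
    have hN0 : (0 : ℝ) < cut t y := by linarith
    have hlogN : 1 < Real.log (cut t y) := by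
      rw [Real.lt_log_iff_exp_lt hN0]
      have := Real.exp_one_lt_d9
      linarith
    have h4 : Real.log (cut t y) ≤ x := by
      rw [Real.log_le_iff_le_exp hN0]
      exact h1
    have h5 : x - 1 ≤ Real.log (cut t y) := by
      rw [Real.le_log_iff_exp_le hN0, Real.exp_sub]
      rw [div_le_iff₀ (Real.exp_pos 1)]
      nlinarith
    rw [← hlx]
    unfold Lg
    have h6 : Real.log (Real.log (cut t y)) ≤ Real.log x := Real.log_le_log (by linarith) h4
    have h7 : Real.log x ≤ Real.log (Real.log (cut t y)) + 2 := by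
      have h8 : x ≤ Real.log (cut t y) * Real.exp 2 := by
        have h9 : (2 : ℝ) ≤ Real.exp 2 := by
          have := Real.add_one_le_exp (2 : ℝ)
          linarith
        nlinarith
      calc Real.log x ≤ Real.log (Real.log (cut t y) * Real.exp 2) := Real.log_le_log hx0 h8
        _ = Real.log (Real.log (cut t y)) + 2 := by
          rw [Real.log_mul (by linarith) (Real.exp_pos 2).ne', Real.log_exp]
    rw [abs_le]
    constructor <;> linarith
  refine ⟨?_, key⟩
  by_cases h3 : 3 ≤ cut t y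
  · have h4 := key h3
    have h5 := hLL (cut t y) h3
    calc |LL 0 (cut t y + 1) - t * Lg y| = |(LL 0 (cut t y + 1) - Lg (cut t y)) +
          (Lg (cut t y) - t * Lg y)| := by ring_nf
      _ ≤ C1 + 2 := (abs_add_le _ _).trans (add_le_add h5 h4)
  · push Not at h3
    have h4 : Real.exp x < 3 := by
      have : (cut t y : ℝ) + 1 ≤ 3 := by exact_mod_cast h3
      linarith
    have h5 : x < 2 := by
      have := Real.add_one_le_exp x
      linarith
    have h6 : Real.log x ≤ 1 := by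
      have := Real.log_le_sub_one_of_pos hx0
      linarith
    have h7 : LL 0 (cut t y + 1) ≤ 1 := by
      have h8 : LL 0 (cut t y + 1) ≤ LL 0 3 := LL_mono 0 (by omega)
      have h9 : LL 0 3 = 1 / 2 := by
        unfold LL
        have : (Ico 0 3).filter Nat.Prime = {2} := by decide
        rw [this, Finset.sum_singleton]
        norm_num
      linarith
    have h8 := LL_nonneg 0 (cut t y + 1)
    rw [← hlx, abs_le]
    constructor <;> linarith

variable {ι : Type} [Fintype ι] [DecidableEq ι]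
variable {a : ∀ p : ℕ, (ι → ZMod p) → ℝ} {G : ∀ p : ℕ, (ι → ZMod p) → Prop} {r C : ℝ}

theorem var_near (D : Dat a G r C) : ∃ K : ℝ, 0 ≤ K ∧ ∀ x : ℕ,
    |∑ p ∈ (Ico 0 x).filter Nat.Prime, vv (ZZ a G) p - LL 0 x| ≤ K := by
  classical
  set T : ℝ := ∑' n : ℕ, 1 / ((n : ℝ) * √n) with hT
  have hC := D.C1
  set K0 : ℝ := 22 + 31 * C + 5 * |r + 1 / 2| + 2 with hK0
  have hK00 : 0 ≤ K0 := by positivity
  refine ⟨K0 * T, mul_nonneg hK00 (tsum_nonneg fun n => by positivity), fun x => ?_⟩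
  unfold LL
  rw [← Finset.sum_sub_distrib]
  refine (Finset.abs_sum_le_sum_abs _ _).trans ?_
  have hb : ∀ p ∈ (Ico 0 x).filter Nat.Prime, |vv (ZZ a G) p - 1 / (p : ℝ)| ≤
      K0 * (1 / ((p : ℝ) * √p)) := by
    intro p hp
    have hpp := (Finset.mem_filter.mp hp).2
    have : NeZero p := ⟨hpp.ne_zero⟩
    have hp1 : (1 : ℝ) ≤ p := by exact_mod_cast hpp.one_lt.le
    have hs1 : 1 ≤ √(p : ℝ) := Real.one_le_sqrt.2 hp1
    rw [vv_eq]
    by_cases h5 : 5 ≤ p
    · refine (D.var hpp h5).trans ?_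
      rw [div_eq_mul_one_div]
      gcongr
      linarith
    · have e : EM p (fun c => ZZ a G p c ^ 2) = 0 := by
        have : (fun c => ZZ a G p c ^ 2) = fun _ => (0 : ℝ) := by
          funext c
          unfold ZZ
          rw [if_neg h5]
          norm_num
        rw [this]
        unfold EM
        simp
      rw [e, zero_sub, abs_neg, abs_of_nonneg (by positivity)]
      have hp4 : (p : ℝ) ≤ 4 := by exact_mod_cast (by omega : p ≤ 4)
      have hs2 : √(p : ℝ) ≤ 2 := by
        rw [Real.sqrt_le_left (by norm_num)]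
        linarith
      have h2 : (2 : ℝ) ≤ K0 := by
        rw [hK0]
        have : 0 ≤ |r + 1 / 2| := abs_nonneg _
        linarith
      have h3 : 1 / (p : ℝ) = √p * (1 / ((p : ℝ) * √p)) := by field_simp
      rw [h3]
      gcongr
      linarith
  refine (Finset.sum_le_sum hb).trans ?_
  rw [← Finset.mul_sum]
  exact mul_le_mul_of_nonneg_left (summable_three.sum_le_tsum _ (fun n _ => by positivity)) hK00

/-- **The characteristic functions of the increments**, families of curves. -/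
theorem clt_dat (D : Dat a G r C) (Q : ℕ → (ι → ℤ) → ℝ) (K2 : ℝ)
    (hQ : ∀ y c, |Q y c - logP a G y c| ≤ K2)
    {k : ℕ} (t : Fin (k + 1) → ℝ) (ht : StrictMono t) (h0 : 0 ≤ t 0) (h1 : t (Fin.last k) ≤ 1)
    (w : Fin k → ℝ) {ε : ℝ} (hε : 0 < ε) :
    ∃ K : ℕ, ∀ᶠ y : ℕ in atTop, ∀ H : ℕ, y ^ K ≤ H →
      ‖EBc H (fun c => Complex.exp ((∑ i, w i * inc Q (r + 1 / 2) t (fun j => cut (t j)) y c i :
        ℝ) * Complex.I)) - (Real.exp (-((∑ i, w i ^ 2) / 2)) : ℝ)‖ ≤ ε := by
  obtain ⟨K0', hK0', hnear'⟩ := D.near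
  have hK2 : 0 ≤ K2 := (abs_nonneg _).trans (hQ 0 0)
  obtain ⟨K1, hK1, hvar⟩ := var_near D
  obtain ⟨K3, hK3, hcut⟩ := cut_near
  have ht0 : ∀ i, 0 ≤ t i := fun i => h0.trans (ht.monotone (Fin.zero_le i))
  have ht1 : ∀ i, t i ≤ 1 := fun i => (ht.monotone (Fin.le_last i)).trans h1
  refine clt_inc D.sys (r + 1 / 2) (K0' + K2) K1 (by positivity) hK1 Q (fun y c => ?_) hvar t ht
    (fun j => cut (t j)) ?_ ?_ K3 hK3 ?_ w hε
  · have h2 := abs_le.mp (hnear' y c)
    have h3 := abs_le.mp (hQ y c)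
    rw [abs_le]
    constructor <;> linarith [h2.1, h2.2, h3.1, h3.2]
  · filter_upwards [log_large] with y hy i j hij
    exact cut_mono hy (ht.monotone hij)
  · filter_upwards [log_large] with y hy i
    exact cut_le hy (ht1 i)
  · filter_upwards [log_large] with y hy i
    exact (hcut y (t i) hy (ht0 i)).1

/-- **The law of the increments.** -/
theorem law_dat (D : Dat a G r C) (Q : ℕ → (ι → ℤ) → ℝ) (K2 : ℝ)
    (hQ : ∀ y c, |Q y c - logP a G y c| ≤ K2)
    {k : ℕ} (t : Fin (k + 1) → ℝ) (ht : StrictMono t) (h0 : 0 ≤ t 0) (h1 : t (Fin.last k) ≤ 1)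
    (S : Set (Fin k → ℝ)) (hS : MeasurableSet S) (hS0 : nor k (frontier S) = 0)
    {ε : ℝ} (hε : 0 < ε) :
    ∃ K y0 : ℕ, ∀ y H : ℕ, y0 ≤ y → y ^ K ≤ H →
      |(lawE H (fun c => inc Q (r + 1 / 2) t (fun j => cut (t j)) y c)).real S -
        (nor k).real S| ≤ ε :=
  law_vec (fun y c => inc Q (r + 1 / 2) t (fun j => cut (t j)) y c)
    (fun w _ hε => clt_dat D Q K2 hQ t ht h0 h1 w hε) S hS hS0 hε

end Pool.Agent.U62.BM
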