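import Pool.Agent.U62.BM.Cut

/-!
# The distance from the functions `κ log log x + A`
-/

set_option autoImplicit false
set_option linter.unusedSectionVars false

namespace Pool.Agent.U62.BM

open Finset Filter Topology Pool.Agent.Y722.HS Pool.Agent.X280.BP MeasureTheory ProbabilityTheory

/-- The law of a linear form. -/
theorem nor_map {k : ℕ} (w : Fin k → ℝ) :
    (nor k).map (fun x => ∑ i, w i * x i) = gaussianReal 0 (Real.toNNReal (∑ i, w i ^ 2)) := by
  have hm : Measurable (fun x : Fin k → ℝ => ∑ i, w i * x i) := by fun_prop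
  have : IsProbabilityMeasure ((nor k).map (fun x => ∑ i, w i * x i)) :=
    Measure.isProbabilityMeasure_map hm.aemeasurable
  apply Measure.ext_of_charFun
  funext s
  rw [charFun_gaussianReal, charFun_apply_real, integral_map hm.aemeasurable
    (by fun_prop : Measurable (fun x : ℝ => Complex.exp (s * x * Complex.I))).aestronglyMeasurable]
  have h1 : ∀ x : Fin k → ℝ, Complex.exp (s * ((∑ i, w i * x i : ℝ) : ℂ) * Complex.I) =
      ∏ i, Complex.exp ((s * w i : ℝ) * x i * Complex.I) := by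
    intro x
    rw [← Complex.exp_sum]
    congr 1
    push_cast
    rw [Finset.mul_sum, Finset.sum_mul]
    refine Finset.sum_congr rfl fun i _ => ?_
    ring
  simp_rw [h1]
  unfold nor
  rw [integral_fintype_prod_eq_prod (𝕜 := ℂ) (fun (i : Fin k) (x : ℝ) =>
    Complex.exp ((s * w i : ℝ) * x * Complex.I))]
  have h2 : ∀ i : Fin k, ∫ x : ℝ, Complex.exp ((s * w i : ℝ) * x * Complex.I) ∂(gaussianReal 0 1) =
      Complex.exp (-((s * w i : ℝ) ^ 2) / 2) := by
    intro i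
    rw [← charFun_apply_real, charFun_gaussianReal]
    congr 1
    push_cast
    ring
  simp_rw [h2]
  rw [← Complex.exp_sum]
  congr 1
  rw [Real.coe_toNNReal _ (Finset.sum_nonneg fun i _ => sq_nonneg (w i))]
  push_cast
  rw [Finset.sum_mul, Finset.sum_div, mul_zero, zero_mul, zero_sub, ← Finset.sum_neg_distrib]
  refine Finset.sum_congr rfl fun i _ => ?_
  ring

theorem nor_hyper {k : ℕ} (w : Fin k → ℝ) (hw : ∃ i, w i ≠ 0) (u : ℝ) :
    nor k {x | ∑ i, w i * x i = u} = 0 := by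
  have hm : Measurable (fun x : Fin k → ℝ => ∑ i, w i * x i) := by fun_prop
  have h1 := nor_map w
  have h2 : Real.toNNReal (∑ i, w i ^ 2) ≠ 0 := by
    obtain ⟨i, hi⟩ := hw
    have h3 : w i ^ 2 ≤ ∑ i, w i ^ 2 :=
      Finset.single_le_sum (f := fun i => w i ^ 2) (fun i _ => sq_nonneg _) (Finset.mem_univ i)
    have h4 : 0 < w i ^ 2 := by positivity
    exact (Real.toNNReal_pos.2 (by linarith)).ne'
  have h3 : ((nor k).map (fun x => ∑ i, w i * x i)) {u} = 0 := by
    rw [h1]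
    have := nullSingletonClass_gaussianReal (μ := 0) h2
    exact measure_singleton u
  rw [Measure.map_apply hm (measurableSet_singleton u)] at h3
  exact h3

/-- A strip. -/
def strip {k : ℕ} (w : Fin k → ℝ) (η : ℝ) : Set (Fin k → ℝ) := {x | |∑ i, w i * x i| ≤ η}

theorem strip_closed {k : ℕ} (w : Fin k → ℝ) (η : ℝ) : IsClosed (strip w η) := by
  unfold strip
  exact isClosed_le (by fun_prop) continuous_const

theorem strip_frontier {k : ℕ} (w : Fin k → ℝ) (hw : ∃ i, w i ≠ 0) (η : ℝ) :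
    nor k (frontier (strip w η)) = 0 := by
  have h1 : frontier (strip w η) ⊆ {x | ∑ i, w i * x i = η} ∪ {x | ∑ i, w i * x i = -η} := by
    have h2 : frontier (strip w η) ⊆ {x : Fin k → ℝ | |∑ i, w i * x i| = η} :=
      frontier_le_subset_eq (by fun_prop) continuous_const
    intro x hx
    have h3 := h2 hx
    simp only [Set.mem_ofPred_eq] at h3
    rcases abs_choice (∑ i, w i * x i) with h | h
    · left
      simp only [Set.mem_ofPred_eq]
      rw [← h, h3]
    · right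
      simp only [Set.mem_ofPred_eq]
      linarith
  exact measure_mono_null h1 (measure_union_null (nor_hyper w hw η) (nor_hyper w hw (-η)))

/-- Narrow strips have small measure. -/
theorem strip_small {k : ℕ} (w : Fin k → ℝ) (hw : ∃ i, w i ≠ 0) {ε : ℝ} (hε : 0 < ε) :
    ∃ η : ℝ, 0 < η ∧ (nor k).real (strip w η) ≤ ε := by
  have h1 : Tendsto (fun n : ℕ => nor k (strip w (1 / ((n : ℝ) + 1)))) atTop
      (𝓝 (nor k (⋂ n : ℕ, strip w (1 / ((n : ℝ) + 1))))) := by
    apply tendsto_measure_iInter_atTop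
    · exact fun n => (strip_closed w _).measurableSet.nullMeasurableSet
    · intro m n hmn x hx
      have h2 : 1 / ((n : ℝ) + 1) ≤ 1 / ((m : ℝ) + 1) := by
        apply one_div_le_one_div_of_le (by positivity)
        have : (m : ℝ) ≤ n := by exact_mod_cast hmn
        linarith
      unfold strip at hx ⊢
      exact le_trans hx h2
    · exact ⟨0, measure_ne_top _ _⟩
  have h2 : nor k (⋂ n : ℕ, strip w (1 / ((n : ℝ) + 1))) = 0 := by
    refine measure_mono_null ?_ (nor_hyper w hw 0)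
    intro x hx
    simp only [Set.mem_iInter] at hx
    simp only [Set.mem_ofPred_eq]
    have h3 : |∑ i, w i * x i| ≤ 0 := by
      have hlim : Tendsto (fun n : ℕ => 1 / ((n : ℝ) + 1)) atTop (𝓝 0) :=
        tendsto_one_div_add_atTop_nhds_zero_nat
      exact ge_of_tendsto' hlim fun n => hx n
    exact abs_eq_zero.mp (le_antisymm h3 (abs_nonneg _))
  rw [h2] at h1
  have h3 : Tendsto (fun n : ℕ => (nor k).real (strip w (1 / ((n : ℝ) + 1)))) atTop (𝓝 0) := by
    have := (ENNReal.tendsto_toReal (ENNReal.zero_ne_top)).comp h1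
    rw [ENNReal.toReal_zero] at this
    exact this
  obtain ⟨n, hn⟩ := (h3.eventually (ge_mem_nhds hε)).exists
  exact ⟨1 / ((n : ℝ) + 1), by positivity, hn⟩

/-- Wide strips have almost full measure. -/
theorem strip_large {k : ℕ} (w : Fin k → ℝ) {ε : ℝ} (hε : 0 < ε) :
    ∃ R : ℝ, 0 < R ∧ 1 - ε ≤ (nor k).real (strip w R) := by
  have h1 : Tendsto (fun n : ℕ => nor k (strip w ((n : ℝ) + 1))) atTop
      (𝓝 (nor k (⋃ n : ℕ, strip w ((n : ℝ) + 1)))) := by
    apply tendsto_measure_iUnion_atTop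
    intro m n hmn x hx
    have h2 : (m : ℝ) + 1 ≤ n + 1 := by
      have : (m : ℝ) ≤ n := by exact_mod_cast hmn
      linarith
    unfold strip at hx ⊢
    exact le_trans hx h2
  have h2 : (⋃ n : ℕ, strip w ((n : ℝ) + 1)) = Set.univ := by
    rw [Set.eq_univ_iff_forall]
    intro x
    rw [Set.mem_iUnion]
    obtain ⟨n, hn⟩ := exists_nat_ge |∑ i, w i * x i|
    refine ⟨n, ?_⟩
    unfold strip
    simp only [Set.mem_ofPred_eq]
    linarith
  rw [h2, measure_univ] at h1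
  have h3 : Tendsto (fun n : ℕ => (nor k).real (strip w ((n : ℝ) + 1))) atTop (𝓝 1) := by
    have := (ENNReal.tendsto_toReal (ENNReal.one_ne_top)).comp h1
    rw [ENNReal.toReal_one] at this
    exact this
  obtain ⟨n, hn⟩ := (h3.eventually (le_mem_nhds (show 1 - ε < 1 by linarith))).exists
  exact ⟨(n : ℝ) + 1, by positivity, hn⟩

variable {ι : Type} [Fintype ι] [DecidableEq ι]
variable {a : ∀ p : ℕ, (ι → ZMod p) → ℝ} {G : ∀ p : ℕ, (ι → ZMod p) → Prop} {r C : ℝ}

theorem lawE_real {E : Type} [MeasurableSpace E] (H : ℕ) (T : (ι → ℤ) → E) (S : Set E)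
    (hS : MeasurableSet S) [DecidablePred fun c => T c ∈ S] :
    (lawE H T).real S = (((Pool.Agent.Y722.HS.box ι H).filter (fun c => T c ∈ S)).card : ℝ) /
      (2 * H + 1 : ℝ) ^ Fintype.card ι := by
  rw [measureReal_def, lawE_apply H T S hS, ENNReal.toReal_ofReal (by positivity)]

theorem far_ineq {σ R η κ κ0 D1 D2 l1 l2 : ℝ} (hσ3 : 3 ≤ σ) (h4R : 4 * R ≤ σ)
    (hησ : η ≤ σ) (hb : 16 * (2 * |κ0| + 1) ≤ η * σ) (h1 : |D1 - κ * l1| ≤ η * σ / 4)
    (h2 : |D2 - κ * l2| ≤ η * σ / 4) (hl1 : |l1 - σ ^ 2| ≤ 4) (hl2 : |l2 - σ ^ 2| ≤ 4)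
    (hinc : |D1 - κ0 * σ ^ 2| ≤ R * σ) : |D2 - D1| ≤ η * σ := by
  have hσ9 : 9 ≤ σ ^ 2 := by nlinarith
  have hl1' := abs_le.mp hl1
  have hl10 : 0 ≤ l1 := by linarith [hl1'.1]
  have hκ : |κ| ≤ 2 * |κ0| + 1 := by
    have a1 : |κ| * l1 ≤ |κ0| * σ ^ 2 + R * σ + η * σ / 4 := by
      have e : κ * l1 = κ0 * σ ^ 2 + (D1 - κ0 * σ ^ 2) - (D1 - κ * l1) := by ring
      calc |κ| * l1 = |κ * l1| := by rw [abs_mul, abs_of_nonneg hl10]
        _ = |κ0 * σ ^ 2 + (D1 - κ0 * σ ^ 2) - (D1 - κ * l1)| := congrArg _ e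
        _ ≤ |κ0 * σ ^ 2 + (D1 - κ0 * σ ^ 2)| + |D1 - κ * l1| := abs_sub _ _
        _ ≤ |κ0 * σ ^ 2| + |D1 - κ0 * σ ^ 2| + |D1 - κ * l1| := by
          have := abs_add_le (κ0 * σ ^ 2) (D1 - κ0 * σ ^ 2)
          linarith
        _ ≤ |κ0| * σ ^ 2 + R * σ + η * σ / 4 := by
          rw [abs_mul, abs_of_nonneg (sq_nonneg σ)]
          linarith
    have a2 : R * σ ≤ σ ^ 2 / 4 := by nlinarith
    have a3 : η * σ / 4 ≤ σ ^ 2 / 4 := by nlinarith
    have a4 : σ ^ 2 / 2 ≤ l1 := by linarith [hl1'.1]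
    have a5 : |κ| * (σ ^ 2 / 2) ≤ |κ| * l1 := mul_le_mul_of_nonneg_left a4 (abs_nonneg _)
    have a6 : |κ| * (σ ^ 2 / 2) ≤ (2 * |κ0| + 1) * (σ ^ 2 / 2) := by nlinarith
    exact le_of_mul_le_mul_right a6 (by positivity)
  have b1 : |l2 - l1| ≤ 8 := by
    have hl2' := abs_le.mp hl2
    rw [abs_le]
    constructor <;> linarith [hl1'.1, hl1'.2, hl2'.1, hl2'.2]
  have b2 : |κ * (l2 - l1)| ≤ (2 * |κ0| + 1) * 8 := by
    rw [abs_mul]
    exact mul_le_mul hκ b1 (abs_nonneg _) (by positivity)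
  have b3 := abs_le.mp b2
  have b4 := abs_le.mp h1
  have b5 := abs_le.mp h2
  rw [abs_le]
  constructor <;> nlinarith [b3.1, b3.2, b4.1, b4.2, b5.1, b5.2]

open Classical in
/-- **The products are far from all the functions `κ log log x + A`.** -/
theorem far_dat (D : Dat a G r C) (Q : ℕ → (ι → ℤ) → ℝ) (K2 : ℝ)
    (hQ : ∀ y c, |Q y c - logP a G y c| ≤ K2)
    {δ : ℝ} (hδ0 : 0 ≤ δ) (hδ1 : δ < 1) {ε : ℝ} (hε : 0 < ε) :
    ∃ η : ℝ, 0 < η ∧ ∃ K y0 : ℕ, ∀ y H : ℕ, y0 ≤ y → y ^ K ≤ H →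
      (((Pool.Agent.Y722.HS.box ι H).filter (fun c => ∃ κ A : ℝ, ∀ x : ℕ, 3 ≤ x → cut δ y ≤ x →
        x ≤ y → |Q x c - κ * Lg x - A| ≤ η * √(Lg y))).card : ℝ) ≤
        ε * (2 * H + 1 : ℝ) ^ Fintype.card ι := by
  set d : ℝ := (1 - δ) / 4 with hd
  have hd0 : 0 < d := by rw [hd]; linarith
  set t : Fin 3 → ℝ := ![(1 + δ) / 2, (3 + δ) / 4, 1] with ht
  have htm : StrictMono t := by
    intro i j hij
    fin_cases i <;> fin_cases j <;> simp [ht] at hij ⊢ <;> linarith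
  have ht0 : 0 ≤ t 0 := by
    simp [ht]
    linarith
  have ht2 : t (Fin.last 2) ≤ 1 := by
    have : t (Fin.last 2) = 1 := rfl
    rw [this]
  set w1 : Fin 2 → ℝ := ![1, 0] with hw1
  set w2 : Fin 2 → ℝ := ![-1, 1] with hw2
  have hw2' : ∃ i, w2 i ≠ 0 := ⟨1, by simp [hw2]⟩
  have hw1' : ∃ i, w1 i ≠ 0 := ⟨0, by simp [hw1]⟩
  obtain ⟨η, hη, hsm⟩ := strip_small w2 hw2' (show (0 : ℝ) < ε / 8 by positivity)
  obtain ⟨R, hR, hlg⟩ := strip_large w1 (show (0 : ℝ) < ε / 8 by positivity)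
  obtain ⟨Ka, ya, ha⟩ := law_dat D Q K2 hQ t htm ht0 ht2 (strip w1 R)
    (strip_closed w1 R).measurableSet (strip_frontier w1 hw1' R) (show (0 : ℝ) < ε / 8 by positivity)
  obtain ⟨Kb, yb, hb⟩ := law_dat D Q K2 hQ t htm ht0 ht2 (strip w2 η)
    (strip_closed w2 η).measurableSet (strip_frontier w2 hw2' η) (show (0 : ℝ) < ε / 8 by positivity)
  obtain ⟨K3, hK3, hcut⟩ := cut_near
  -- large y
  have hσlim : Tendsto (fun y : ℕ => √(d * Lg y)) atTop atTop :=
    Real.tendsto_sqrt_atTop.comp (tendsto_Lg.const_mul_atTop hd0)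
  have hcut3 : ∀ᶠ y : ℕ in atTop, 3 ≤ cut (1 / 2) y := by
    have h1 : Tendsto (fun y : ℕ => Real.log y ^ (1 / 2 : ℝ)) atTop atTop :=
      (tendsto_rpow_atTop (by norm_num : (0 : ℝ) < 1 / 2)).comp
        (Real.tendsto_log_atTop.comp tendsto_natCast_atTop_atTop)
    filter_upwards [h1.eventually_ge_atTop 3] with y hy
    unfold cut
    apply Nat.le_floor
    have h2 := Real.add_one_le_exp (Real.log y ^ (1 / 2 : ℝ))
    push_cast
    linarith
  have hall : ∀ᶠ y : ℕ in atTop, 1 ≤ Real.log y ∧ 3 ≤ cut (1 / 2) y ∧ 3 ≤ √(d * Lg y) ∧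
      4 * R ≤ √(d * Lg y) ∧ η ≤ √(d * Lg y) ∧
      16 * (2 * |r + 1 / 2| + 1) / η ≤ √(d * Lg y) := by
    filter_upwards [log_large, hcut3, hσlim.eventually_ge_atTop 3,
      hσlim.eventually_ge_atTop (4 * R), hσlim.eventually_ge_atTop η,
      hσlim.eventually_ge_atTop (16 * (2 * |r + 1 / 2| + 1) / η)] with y h1 h2 h3 h4 h5 h6
    exact ⟨h1, h2, h3, h4, h5, h6⟩
  obtain ⟨yc, hyc⟩ := eventually_atTop.1 hall
  refine ⟨η * √d / 4 / 2, by positivity, Ka + Kb, max (max ya yb) (max yc 1), fun y H hy hH => ?_⟩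
  have hya : ya ≤ y := (le_max_left _ _).trans ((le_max_left _ _).trans hy)
  have hyb : yb ≤ y := (le_max_right _ _).trans ((le_max_left _ _).trans hy)
  have hyc' : yc ≤ y := (le_max_left _ _).trans ((le_max_right _ _).trans hy)
  have hy1 : 1 ≤ y := (le_max_right _ _).trans ((le_max_right _ _).trans hy)
  obtain ⟨c1, c2, c3, c4, c5, c6⟩ := hyc y hyc'
  have hHa : y ^ Ka ≤ H := (Nat.pow_le_pow_right hy1 (by omega)).trans hH
  have hHb : y ^ Kb ≤ H := (Nat.pow_le_pow_right hy1 (by omega)).trans hH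
  have k1 := ha y H hya hHa
  have k2 := hb y H hyb hHb
  set X : (ι → ℤ) → (Fin 2 → ℝ) := fun c => inc Q (r + 1 / 2) t (fun j => cut (t j)) y c with hX
  rw [lawE_real _ _ _ (strip_closed w1 R).measurableSet] at k1
  rw [lawE_real _ _ _ (strip_closed w2 η).measurableSet] at k2
  set N : ℝ := (2 * H + 1 : ℝ) ^ Fintype.card ι with hN
  have hN0 : 0 < N := by positivity
  set σ := √(d * Lg y) with hσ
  have hσ0 : 0 < σ := by linarith
  have hL0 : 0 < Lg y := by
    by_contra hcon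
    push Not at hcon
    have : d * Lg y ≤ 0 := mul_nonpos_of_nonneg_of_nonpos hd0.le hcon
    have h2 : σ = 0 := Real.sqrt_eq_zero_of_nonpos this
    linarith
  have hσσ : σ ^ 2 = d * Lg y := Real.sq_sqrt (by positivity)
  have hσm : √d * √(Lg y) = σ := (Real.sqrt_mul hd0.le _).symm
  -- the three points
  have hpt : ∀ i : Fin 3, 3 ≤ cut (t i) y ∧ cut δ y ≤ cut (t i) y ∧ cut (t i) y ≤ y ∧
      |Lg (cut (t i) y) - t i * Lg y| ≤ 2 := by
    intro i
    have h1 : 1 / 2 ≤ t i := by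
      have : t 0 ≤ t i := htm.monotone (Fin.zero_le i)
      have h2 : t 0 = (1 + δ) / 2 := rfl
      linarith
    have h2 : δ ≤ t i := by
      have : t 0 ≤ t i := htm.monotone (Fin.zero_le i)
      have h2 : t 0 = (1 + δ) / 2 := rfl
      linarith
    have h3 : t i ≤ 1 := (htm.monotone (Fin.le_last i)).trans ht2
    have h4 : 3 ≤ cut (t i) y := c2.trans (cut_mono c1 h1)
    exact ⟨h4, cut_mono c1 h2, cut_le c1 h3, (hcut y (t i) c1 (by linarith)).2 h4⟩
  -- inclusion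
  have hincl : ((Pool.Agent.Y722.HS.box ι H).filter (fun c => ∃ κ A : ℝ, ∀ x : ℕ, 3 ≤ x →
        cut δ y ≤ x → x ≤ y → |Q x c - κ * Lg x - A| ≤ η * √d / 4 / 2 * √(Lg y))) ⊆
      ((Pool.Agent.Y722.HS.box ι H) \ (Pool.Agent.Y722.HS.box ι H).filter
        (fun c => X c ∈ strip w1 R)) ∪
      (Pool.Agent.Y722.HS.box ι H).filter (fun c => X c ∈ strip w2 η) := by
    intro c hc
    rw [Finset.mem_filter] at hc
    obtain ⟨hcb, κ, A, hκ⟩ := hc
    rw [Finset.mem_union, Finset.mem_sdiff, Finset.mem_filter, Finset.mem_filter]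
    by_cases hin : X c ∈ strip w1 R
    · right
      refine ⟨hcb, ?_⟩
      have hM : η * √d / 4 / 2 * √(Lg y) = η * σ / 8 := by
        rw [← hσm]
        ring
      obtain ⟨p1, p2, p3, p4⟩ := hpt 0
      obtain ⟨q1, q2, q3, q4⟩ := hpt 1
      obtain ⟨r1, r2, r3, r4⟩ := hpt 2
      have f0 := hκ _ p1 p2 p3
      have f1 := hκ _ q1 q2 q3
      have f2 := hκ _ r1 r2 r3
      rw [hM] at f0 f1 f2
      have e0 : t 0 = (1 + δ) / 2 := rfl
      have e1 : t 1 = (3 + δ) / 4 := rfl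
      have e2 : t 2 = 1 := rfl
      have hX0 : X c 0 = (Q (cut (t 1) y) c - Q (cut (t 0) y) c - (r + 1 / 2) * σ ^ 2) / σ := by
        have : X c 0 = (Q (cut (t 1) y) c - Q (cut (t 0) y) c - (r + 1 / 2) * (t 1 - t 0) * Lg y) /
          √((t 1 - t 0) * Lg y) := rfl
        rw [this, hσσ, show t 1 - t 0 = d by rw [e0, e1, hd]; ring, ← hσ]
        ring
      have hX1 : X c 1 = (Q (cut (t 2) y) c - Q (cut (t 1) y) c - (r + 1 / 2) * σ ^ 2) / σ := by
        have : X c 1 = (Q (cut (t 2) y) c - Q (cut (t 1) y) c - (r + 1 / 2) * (t 2 - t 1) * Lg y) /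
          √((t 2 - t 1) * Lg y) := rfl
        rw [this, hσσ, show t 2 - t 1 = d by rw [e1, e2, hd]; ring, ← hσ]
        ring
      have hs1 : |X c 0| ≤ R := by
        unfold strip at hin
        simpa [Fin.sum_univ_two, hw1] using hin
      have hs2 : |Q (cut (t 1) y) c - Q (cut (t 0) y) c - (r + 1 / 2) * σ ^ 2| ≤ R * σ := by
        rw [hX0, abs_div, abs_of_pos hσ0, div_le_iff₀ hσ0] at hs1
        exact hs1
      have g0 := abs_le.mp f0
      have g1 := abs_le.mp f1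
      have g2 := abs_le.mp f2
      have m0 := abs_le.mp p4
      have m1 := abs_le.mp q4
      have m2 := abs_le.mp r4
      have hfin := far_ineq (κ := κ) (κ0 := r + 1 / 2) (R := R) (η := η) (σ := σ)
        (D1 := Q (cut (t 1) y) c - Q (cut (t 0) y) c)
        (D2 := Q (cut (t 2) y) c - Q (cut (t 1) y) c)
        (l1 := Lg (cut (t 1) y) - Lg (cut (t 0) y)) (l2 := Lg (cut (t 2) y) - Lg (cut (t 1) y))
        c3 c4 c5 (by rw [div_le_iff₀ hη] at c6; linarith)
        (by rw [abs_le]; constructor <;> linarith [g0.1, g0.2, g1.1, g1.2])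
        (by rw [abs_le]; constructor <;> linarith [g2.1, g2.2, g1.1, g1.2])
        (by
          rw [hσσ, show d = t 1 - t 0 by rw [e0, e1, hd]; ring, abs_le]
          constructor <;> linarith [m0.1, m0.2, m1.1, m1.2])
        (by
          rw [hσσ, show d = t 2 - t 1 by rw [e2, e1, hd]; ring, abs_le]
          constructor <;> linarith [m2.1, m2.2, m1.1, m1.2])
        hs2
      have hgoal : |X c 1 - X c 0| ≤ η := by
        rw [hX0, hX1, ← sub_div, abs_div, abs_of_pos hσ0, div_le_iff₀ hσ0]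
        refine le_trans (le_of_eq ?_) hfin
        congr 1
        ring
      unfold strip
      simp only [Set.mem_ofPred_eq, Fin.sum_univ_two, hw2]
      have : (![-1, 1] : Fin 2 → ℝ) 0 * X c 0 + (![-1, 1] : Fin 2 → ℝ) 1 * X c 1 = X c 1 - X c 0 := by
        simp
        ring
      rw [this]
      exact hgoal
    · left
      exact ⟨hcb, fun h => hin h.2⟩
  have hcard := Finset.card_le_card hincl
  have hcard2 := hcard.trans (Finset.card_union_le _ _)
  have hbox : ((Pool.Agent.Y722.HS.box ι H).card : ℝ) = N := card_box H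
  set F1 := (Pool.Agent.Y722.HS.box ι H).filter (fun c => X c ∈ strip w1 R) with hF1
  set F2 := (Pool.Agent.Y722.HS.box ι H).filter (fun c => X c ∈ strip w2 η) with hF2
  have hsd : (((Pool.Agent.Y722.HS.box ι H) \ F1).card : ℝ) = N - F1.card := by
    have h1 := Finset.card_sdiff_add_card_eq_card (Finset.filter_subset (fun c => X c ∈ strip w1 R)
      (Pool.Agent.Y722.HS.box ι H))
    rw [← hbox]
    have h2 : ((((Pool.Agent.Y722.HS.box ι H) \ F1).card : ℝ) + F1.card =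
      (Pool.Agent.Y722.HS.box ι H).card) := by exact_mod_cast h1
    linarith
  have n1 : (1 - ε / 4) * N ≤ F1.card := by
    have h1 := (abs_le.mp k1).1
    have h2 : 1 - ε / 4 ≤ (F1.card : ℝ) / N := by linarith
    rwa [le_div_iff₀ hN0] at h2
  have n2 : (F2.card : ℝ) ≤ ε / 4 * N := by
    have h1 := (abs_le.mp k2).2
    have h2 : (F2.card : ℝ) / N ≤ ε / 4 := by linarith
    rwa [div_le_iff₀ hN0] at h2
  have hcard3 : (((Pool.Agent.Y722.HS.box ι H).filter (fun c => ∃ κ A : ℝ, ∀ x : ℕ, 3 ≤ x →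
        cut δ y ≤ x → x ≤ y → |Q x c - κ * Lg x - A| ≤ η * √d / 4 / 2 * √(Lg y))).card : ℝ) ≤
      ((Pool.Agent.Y722.HS.box ι H) \ F1).card + F2.card := by exact_mod_cast hcard2
  rw [hsd] at hcard3
  nlinarith

end Pool.Agent.U62.BM
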