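import Pool.Agent.U62.BM.Vec

/-!
# The increments of the products at several scales: characteristic functions
-/

set_option autoImplicit false
set_option linter.unusedSectionVars false

namespace Pool.Agent.U62.BM

open Finset Filter Topology Pool.Agent.Y722.HS Pool.Agent.X280.BP MeasureTheory ProbabilityTheory

variable {ι : Type} [Fintype ι] [DecidableEq ι] {Z : ∀ p : ℕ, (ι → ZMod p) → ℝ} {B : ℝ}

/-- The normalised increments. -/
noncomputable def inc {k : ℕ} (Q : ℕ → (ι → ℤ) → ℝ) (κ : ℝ) (t : Fin (k + 1) → ℝ)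
    (M : Fin (k + 1) → ℕ → ℕ) (y : ℕ) (c : ι → ℤ) (i : Fin k) : ℝ :=
  (Q (M i.succ y) c - Q (M i.castSucc y) c - κ * (t i.succ - t i.castSucc) * Lg y) /
    √((t i.succ - t i.castSucc) * Lg y)

/-- The weight of `p`. -/
noncomputable def wt {k : ℕ} (t : Fin (k + 1) → ℝ) (M : Fin (k + 1) → ℕ → ℕ) (w : Fin k → ℝ)
    (y p : ℕ) : ℝ :=
  ∑ i : Fin k, if M i.castSucc y < p ∧ p ≤ M i.succ y then
    w i / √((t i.succ - t i.castSucc) * Lg y) else 0

theorem wt_sq {k : ℕ} (t : Fin (k + 1) → ℝ) (M : Fin (k + 1) → ℕ → ℕ) (w : Fin k → ℝ)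
    (y p : ℕ) (hM : Monotone (fun i => M i y)) :
    wt t M w y p ^ 2 = ∑ i : Fin k, if M i.castSucc y < p ∧ p ≤ M i.succ y then
      (w i / √((t i.succ - t i.castSucc) * Lg y)) ^ 2 else 0 := by
  unfold wt
  by_cases h : ∃ i : Fin k, M i.castSucc y < p ∧ p ≤ M i.succ y
  · obtain ⟨i, hi⟩ := h
    have huniq : ∀ j : Fin k, j ≠ i → ¬ (M j.castSucc y < p ∧ p ≤ M j.succ y) := by
      intro j hj hj2
      rcases lt_or_gt_of_ne hj with h1 | h1
      · have h2 : M j.succ y ≤ M i.castSucc y := hM (by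
          rw [Fin.le_def]; simp; omega)
        omega
      · have h2 : M i.succ y ≤ M j.castSucc y := hM (by
          rw [Fin.le_def]; simp; omega)
        omega
    rw [Finset.sum_eq_single i (fun j _ hj => by rw [if_neg (huniq j hj)]) (by simp),
      Finset.sum_eq_single i (fun j _ hj => by rw [if_neg (huniq j hj)]) (by simp),
      if_pos hi, if_pos hi]
  · push Not at h
    have h1 : ∀ i : Fin k, ¬ (M i.castSucc y < p ∧ p ≤ M i.succ y) := by
      intro i hi
      have := h i hi.1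
      omega
    rw [Finset.sum_eq_zero (fun i _ => by rw [if_neg (h1 i)]),
      Finset.sum_eq_zero (fun i _ => by rw [if_neg (h1 i)])]
    norm_num

theorem sum_window (f : ℕ → ℝ) {a b y : ℕ} (hab : a ≤ b) (hb : b ≤ y) :
    ∑ p ∈ (Ico 0 (y + 1)).filter Nat.Prime, (if a < p ∧ p ≤ b then f p else 0) =
      ∑ p ∈ (Ico 0 (b + 1)).filter Nat.Prime, f p - ∑ p ∈ (Ico 0 (a + 1)).filter Nat.Prime, f p := by
  classical
  have h1 : (Ico 0 (a + 1)).filter Nat.Prime ⊆ (Ico 0 (b + 1)).filter Nat.Prime :=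
    Finset.filter_subset_filter _ (Finset.Ico_subset_Ico_right (by omega))
  rw [eq_sub_iff_add_eq, ← Finset.sum_filter, ← Finset.sum_sdiff h1]
  congr 1
  refine Finset.sum_congr ?_ fun _ _ => rfl
  ext p
  simp only [Finset.mem_filter, Finset.mem_sdiff, Finset.mem_Ico]
  constructor
  · rintro ⟨⟨⟨_, h2⟩, h3⟩, h4, h5⟩
    exact ⟨⟨⟨Nat.zero_le _, by omega⟩, h3⟩, fun h => by omega⟩
  · rintro ⟨⟨⟨_, h2⟩, h3⟩, h4⟩
    have h5 : a < p := by
      by_contra hc
      exact h4 ⟨⟨Nat.zero_le _, by omega⟩, h3⟩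
    exact ⟨⟨⟨Nat.zero_le _, by omega⟩, h3⟩, h5, by omega⟩

theorem EM_neg_mul (p : ℕ) [NeZero p] (e : ℝ) (f : (ι → ZMod p) → ℝ) :
    EM p (fun c => e * f c) = e * EM p f := by
  unfold EM
  rw [← Finset.mul_sum, mul_div_assoc]

theorem vv_smul (e : ℕ → ℝ) (Z : ∀ p : ℕ, (ι → ZMod p) → ℝ) (p : ℕ) :
    vv (fun p c => e p * Z p c) p = e p ^ 2 * vv Z p := by
  unfold vv
  split_ifs with h
  · simp
  · have : NeZero p := ⟨h⟩
    rw [← EM_neg_mul]
    congr 1
    funext c
    ring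

/-- **The characteristic functions of the increments.** -/
theorem clt_inc (hS : Sys Z B) (κ K0 K1 : ℝ) (hK0 : 0 ≤ K0) (hK1 : 0 ≤ K1)
    (Q : ℕ → (ι → ℤ) → ℝ)
    (hnear : ∀ (y : ℕ) (c : ι → ℤ), |Q y c + SS Z 0 (y + 1) c - κ * LL 0 (y + 1)| ≤ K0)
    (hvar : ∀ x : ℕ, |∑ p ∈ (Ico 0 x).filter Nat.Prime, vv Z p - LL 0 x| ≤ K1)
    {k : ℕ} (t : Fin (k + 1) → ℝ) (ht : StrictMono t) (M : Fin (k + 1) → ℕ → ℕ)
    (hM : ∀ᶠ y in atTop, Monotone (fun i => M i y)) (hMy : ∀ᶠ y in atTop, ∀ i, M i y ≤ y)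
    (K2 : ℝ) (hK2 : 0 ≤ K2) (hL : ∀ᶠ y in atTop, ∀ i, |LL 0 (M i y + 1) - t i * Lg y| ≤ K2)
    (w : Fin k → ℝ) {ε : ℝ} (hε : 0 < ε) :
    ∃ K : ℕ, ∀ᶠ y : ℕ in atTop, ∀ H : ℕ, y ^ K ≤ H →
      ‖EBc H (fun c => Complex.exp ((∑ i, w i * inc Q κ t M y c i : ℝ) * Complex.I)) -
        (Real.exp (-((∑ i, w i ^ 2) / 2)) : ℝ)‖ ≤ ε := by
  classical
  have hB1 := hS.one_le
  have hB0 : 0 < B := lt_of_lt_of_le one_pos hS.one_le
  obtain ⟨C1, hC1, hLL⟩ := LL_Lg
  have hd : ∀ i : Fin k, 0 < t i.succ - t i.castSucc := fun i => by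
    have := ht (Fin.castSucc_lt_succ (i := i))
    linarith
  set W : ℝ := ∑ i : Fin k, |w i| / √(t i.succ - t i.castSucc) with hW
  have hW0 : 0 ≤ W := Finset.sum_nonneg fun i _ => by positivity
  set W1 : ℝ := W + 1 with hW1
  have hW10 : 0 < W1 := by linarith
  have hsL : Tendsto (fun y : ℕ => √(Lg y)) atTop atTop := Real.tendsto_sqrt_atTop.comp tendsto_Lg
  have hz : ∀ K : ℝ, Tendsto (fun y : ℕ => K / √(Lg y)) atTop (𝓝 0) := fun K =>
    tendsto_const_nhds.div_atTop hsL
  -- the size of the weights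
  have hwt : ∀ y p : ℕ, 0 < Lg y → |wt t M w y p| ≤ W / √(Lg y) := by
    intro y p hL0
    unfold wt
    refine (Finset.abs_sum_le_sum_abs _ _).trans ?_
    rw [hW, Finset.sum_div]
    refine Finset.sum_le_sum fun i _ => ?_
    have h1 : √((t i.succ - t i.castSucc) * Lg y) =
        √(t i.succ - t i.castSucc) * √(Lg y) := Real.sqrt_mul (hd i).le _
    split_ifs with h
    · rw [abs_div, h1, abs_of_nonneg (by positivity : 0 ≤ √(t i.succ - t i.castSucc) * √(Lg y)),
        ← div_div]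
    · rw [abs_zero]
      positivity
  have hmain := clt_tri (fun y p c => -wt t M w y p * Z p c)
    (fun y p => W1 * B / √p / √(Lg y)) (B := 1) (W := 2 * (W1 * B) ^ 2) (v := ∑ i, w i ^ 2)
    (m := 0) le_rfl (by positivity) (Finset.sum_nonneg fun i _ => sq_nonneg _)
    ?_ ?_ ?_ ?_ ?_ ?_ (fun y c => ∑ i, w i * inc Q κ t M y c i)
    (fun y => W * (2 * K0 + 2 * |κ| * K2) / √(Lg y)) (hz _) ?_ 1 hε
  · obtain ⟨K, hK⟩ := hmain
    refine ⟨K, ?_⟩
    filter_upwards [hK] with y hy H hH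
    have h1 := hy H hH
    simp only [one_mul, one_pow, mul_zero, Complex.ofReal_zero, zero_mul, Complex.exp_zero] at h1
    exact h1
  · filter_upwards [tendsto_Lg.eventually_ge_atTop 1] with y hy p hp c
    have hpp := (Finset.mem_filter.mp hp).2
    have hL0 : 0 < Lg y := by linarith
    rw [abs_mul, abs_neg]
    have h1 := hwt y p hL0
    have h2 := hS.bd p hpp c
    have hs0 : 0 < √(Lg y) := Real.sqrt_pos.2 hL0
    have hp0 : 0 < √(p : ℝ) := Real.sqrt_pos.2 (by exact_mod_cast hpp.pos)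
    calc |wt t M w y p| * |Z p c| ≤ W / √(Lg y) * (B / √p) := by gcongr
      _ ≤ W1 / √(Lg y) * (B / √p) := by
        gcongr
        linarith
      _ = W1 * B / √p / √(Lg y) := by field_simp
  · filter_upwards [tendsto_Lg.eventually_ge_atTop 1,
      (hz (W1 * B)).eventually (ge_mem_nhds (show (0 : ℝ) < 1 by norm_num))] with y hy hy2 p hp
    have hpp := (Finset.mem_filter.mp hp).2
    have hp1 : (1 : ℝ) ≤ √(p : ℝ) := Real.one_le_sqrt.2 (by exact_mod_cast hpp.one_lt.le)
    refine le_trans ?_ hy2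
    have hs0 : 0 < √(Lg y) := Real.sqrt_pos.2 (by linarith)
    gcongr
    exact div_le_self (by positivity) hp1
  · refine Eventually.of_forall fun y p hp _ => ?_
    have hpp := (Finset.mem_filter.mp hp).2
    rw [EM_neg_mul, hS.mean p hpp, mul_zero]
  · filter_upwards [tendsto_Lg.eventually_ge_atTop (C1 + 1), eventually_ge_atTop 3] with y hy hy3
    have hL0 : 0 < Lg y := by linarith
    have hLLle : LL 0 (y + 1) ≤ 2 * Lg y := by
      have := (abs_le.mp (hLL y hy3)).2
      linarith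
    have e : ∑ p ∈ (Ico 0 (y + 1)).filter Nat.Prime, (W1 * B / √(p : ℝ) / √(Lg y)) ^ 2 =
        (W1 * B) ^ 2 / Lg y * LL 0 (y + 1) := by
      unfold LL
      rw [Finset.mul_sum]
      refine Finset.sum_congr rfl fun p _ => ?_
      rw [div_pow, div_pow, Real.sq_sqrt hL0.le, Real.sq_sqrt (by positivity)]
      field_simp
    rw [e]
    calc (W1 * B) ^ 2 / Lg y * LL 0 (y + 1) ≤ (W1 * B) ^ 2 / Lg y * (2 * Lg y) := by gcongr
      _ = 2 * (W1 * B) ^ 2 := by field_simp
  · set T : ℝ := ∑' n : ℕ, 1 / ((n : ℝ) * √n) with hT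
    have hT0 : 0 ≤ T := tsum_nonneg fun n => by positivity
    have hlim : Tendsto (fun y : ℕ => (W1 * B) ^ 3 * T / √(Lg y)) atTop (𝓝 0) := hz _
    refine squeeze_zero' ?_ ?_ hlim
    · refine Eventually.of_forall fun y => Finset.sum_nonneg fun p _ => ?_
      have : 0 ≤ W1 * B / √(p : ℝ) / √(Lg y) := by positivity
      positivity
    · filter_upwards [tendsto_Lg.eventually_ge_atTop 1] with y hy
      have hL0 : 0 < Lg y := by linarith
      have hs0 : 0 < √(Lg y) := Real.sqrt_pos.2 hL0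
      have hs1 : 1 ≤ √(Lg y) := Real.one_le_sqrt.2 hy
      have h3 : ∀ p ∈ (Ico 0 (y + 1)).filter Nat.Prime, (W1 * B / √(p : ℝ) / √(Lg y)) ^ 3 ≤
          (W1 * B) ^ 3 / √(Lg y) * (1 / ((p : ℝ) * √p)) := by
        intro p hp
        have hpp := (Finset.mem_filter.mp hp).2
        have hp1 : (1 : ℝ) ≤ p := by exact_mod_cast hpp.one_lt.le
        have hsq1 : 1 ≤ √(p : ℝ) := Real.one_le_sqrt.2 hp1
        have hsq0 : 0 < √(p : ℝ) := by linarith
        have hss : √(p : ℝ) * √(p : ℝ) = p := Real.mul_self_sqrt (by linarith)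
        have k1 : (W1 * B / √(p : ℝ) / √(Lg y)) ^ 3 =
            (W1 * B) ^ 3 * (1 / ((p : ℝ) * √p)) * (1 / √(Lg y) ^ 3) := by
          rw [div_pow, div_pow, show √(p : ℝ) ^ 3 = (√(p : ℝ) * √(p : ℝ)) * √(p : ℝ) by ring, hss]
          ring
        have k2 : 1 / √(Lg y) ^ 3 ≤ 1 / √(Lg y) := by
          apply one_div_le_one_div_of_le hs0
          calc √(Lg y) = √(Lg y) ^ 1 := (pow_one _).symm
            _ ≤ √(Lg y) ^ 3 := pow_le_pow_right₀ hs1 (by norm_num)
        rw [k1]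
        calc (W1 * B) ^ 3 * (1 / ((p : ℝ) * √p)) * (1 / √(Lg y) ^ 3) ≤
            (W1 * B) ^ 3 * (1 / ((p : ℝ) * √p)) * (1 / √(Lg y)) := by gcongr
          _ = (W1 * B) ^ 3 / √(Lg y) * (1 / ((p : ℝ) * √p)) := by ring
      refine (Finset.sum_le_sum h3).trans ?_
      rw [← Finset.mul_sum]
      have h4 : ∑ p ∈ (Ico 0 (y + 1)).filter Nat.Prime, 1 / ((p : ℝ) * √p) ≤ T :=
        summable_three.sum_le_tsum _ (fun n _ => by positivity)
      calc (W1 * B) ^ 3 / √(Lg y) * ∑ p ∈ (Ico 0 (y + 1)).filter Nat.Prime, 1 / ((p : ℝ) * √p) ≤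
          (W1 * B) ^ 3 / √(Lg y) * T := by gcongr
        _ = (W1 * B) ^ 3 * T / √(Lg y) := by ring
  · -- the variance
    have hterm : ∀ i : Fin k, Tendsto (fun y : ℕ => w i ^ 2 / ((t i.succ - t i.castSucc) * Lg y) *
        (∑ p ∈ (Ico 0 (M i.succ y + 1)).filter Nat.Prime, vv Z p -
          ∑ p ∈ (Ico 0 (M i.castSucc y + 1)).filter Nat.Prime, vv Z p)) atTop (𝓝 (w i ^ 2)) := by
      intro i
      have hz2 : Tendsto (fun y : ℕ => w i ^ 2 / (t i.succ - t i.castSucc) * (2 * K1 + 2 * K2) /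
          Lg y) atTop (𝓝 0) := tendsto_const_nhds.div_atTop tendsto_Lg
      rw [tendsto_iff_norm_sub_tendsto_zero]
      refine squeeze_zero' (Eventually.of_forall fun y => norm_nonneg _) ?_ hz2
      filter_upwards [tendsto_Lg.eventually_ge_atTop 1, hL] with y hy hLy
      have hL0 : 0 < Lg y := by linarith
      have hdi := hd i
      have a1 := abs_le.mp (hvar (M i.succ y + 1))
      have a2 := abs_le.mp (hvar (M i.castSucc y + 1))
      have a3 := abs_le.mp (hLy i.succ)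
      have a4 := abs_le.mp (hLy i.castSucc)
      set V1 := ∑ p ∈ (Ico 0 (M i.succ y + 1)).filter Nat.Prime, vv Z p
      set V2 := ∑ p ∈ (Ico 0 (M i.castSucc y + 1)).filter Nat.Prime, vv Z p
      have e : w i ^ 2 / ((t i.succ - t i.castSucc) * Lg y) * (V1 - V2) - w i ^ 2 =
          w i ^ 2 / (t i.succ - t i.castSucc) / Lg y *
            ((V1 - V2) - (t i.succ - t i.castSucc) * Lg y) := by
        field_simp
      rw [Real.norm_eq_abs, e, abs_mul, abs_of_nonneg (by positivity)]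
      have h5 : |(V1 - V2) - (t i.succ - t i.castSucc) * Lg y| ≤ 2 * K1 + 2 * K2 := by
        rw [abs_le]
        constructor <;> nlinarith
      calc w i ^ 2 / (t i.succ - t i.castSucc) / Lg y *
            |(V1 - V2) - (t i.succ - t i.castSucc) * Lg y| ≤
          w i ^ 2 / (t i.succ - t i.castSucc) / Lg y * (2 * K1 + 2 * K2) := by gcongr
        _ = w i ^ 2 / (t i.succ - t i.castSucc) * (2 * K1 + 2 * K2) / Lg y := by ring
    have hsum := tendsto_finset_sum Finset.univ fun i (_ : i ∈ Finset.univ) => hterm i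
    refine hsum.congr' ?_
    filter_upwards [tendsto_Lg.eventually_ge_atTop 1, hM, hMy] with y hy hMo hMle
    have hL0 : 0 < Lg y := by linarith
    symm
    have e1 : ∀ p, vv (fun p c => -wt t M w y p * Z p c) p = wt t M w y p ^ 2 * vv Z p := by
      intro p
      have := vv_smul (fun p => -wt t M w y p) Z p
      rw [this]
      ring
    simp_rw [e1, wt_sq t M w y _ hMo, Finset.sum_mul]
    rw [Finset.sum_comm]
    refine Finset.sum_congr rfl fun i _ => ?_
    have hle : M i.castSucc y ≤ M i.succ y := hMo (Fin.castSucc_lt_succ (i := i)).le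
    rw [← sum_window (vv Z) hle (hMle i.succ), Finset.mul_sum]
    refine Finset.sum_congr rfl fun p _ => ?_
    split_ifs with h
    · rw [div_pow, Real.sq_sqrt (mul_nonneg (hd i).le hL0.le)]
    · ring
  · filter_upwards [tendsto_Lg.eventually_ge_atTop 1, hM, hMy, hL] with y hy hMo hMle hLy c
    have hL0 : 0 < Lg y := by linarith
    have hs0 : 0 < √(Lg y) := Real.sqrt_pos.2 hL0
    have e1 : SS (fun p c => -wt t M w y p * Z p c) 0 (y + 1) c =
        -∑ i : Fin k, w i / √((t i.succ - t i.castSucc) * Lg y) *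
          (SS Z 0 (M i.succ y + 1) c - SS Z 0 (M i.castSucc y + 1) c) := by
      unfold SS
      have e2 : ∀ p, -wt t M w y p * Z p (red p c) =
          -∑ i : Fin k, w i / √((t i.succ - t i.castSucc) * Lg y) *
            (if M i.castSucc y < p ∧ p ≤ M i.succ y then Z p (red p c) else 0) := by
        intro p
        unfold wt
        rw [neg_mul, Finset.sum_mul]
        congr 1
        refine Finset.sum_congr rfl fun i _ => ?_
        split_ifs <;> ring
      simp_rw [e2]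
      rw [Finset.sum_neg_distrib, Finset.sum_comm]
      congr 1
      refine Finset.sum_congr rfl fun i _ => ?_
      have hle : M i.castSucc y ≤ M i.succ y := hMo (Fin.castSucc_lt_succ (i := i)).le
      rw [← Finset.mul_sum, sum_window (fun p => Z p (red p c)) hle (hMle i.succ)]
    rw [e1, zero_add, sub_neg_eq_add, ← Finset.sum_add_distrib]
    refine (Finset.abs_sum_le_sum_abs _ _).trans ?_
    rw [hW, mul_div_assoc, Finset.sum_mul]
    refine Finset.sum_le_sum fun i _ => ?_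
    have hdi := hd i
    have h1 : √((t i.succ - t i.castSucc) * Lg y) =
        √(t i.succ - t i.castSucc) * √(Lg y) := Real.sqrt_mul (hd i).le _
    have e3 : w i * inc Q κ t M y c i + w i / √((t i.succ - t i.castSucc) * Lg y) *
          (SS Z 0 (M i.succ y + 1) c - SS Z 0 (M i.castSucc y + 1) c) =
        w i / √((t i.succ - t i.castSucc) * Lg y) *
          ((Q (M i.succ y) c + SS Z 0 (M i.succ y + 1) c - κ * LL 0 (M i.succ y + 1)) -
           (Q (M i.castSucc y) c + SS Z 0 (M i.castSucc y + 1) c - κ * LL 0 (M i.castSucc y + 1)) +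
           κ * (LL 0 (M i.succ y + 1) - t i.succ * Lg y) -
           κ * (LL 0 (M i.castSucc y + 1) - t i.castSucc * Lg y)) := by
      unfold inc
      ring
    rw [e3, abs_mul]
    have h2 : |(Q (M i.succ y) c + SS Z 0 (M i.succ y + 1) c - κ * LL 0 (M i.succ y + 1)) -
           (Q (M i.castSucc y) c + SS Z 0 (M i.castSucc y + 1) c - κ * LL 0 (M i.castSucc y + 1)) +
           κ * (LL 0 (M i.succ y + 1) - t i.succ * Lg y) -
           κ * (LL 0 (M i.castSucc y + 1) - t i.castSucc * Lg y)| ≤ 2 * K0 + 2 * |κ| * K2 := by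
      have b1 := abs_le.mp (hnear (M i.succ y) c)
      have b2 := abs_le.mp (hnear (M i.castSucc y) c)
      have b3 : |κ * (LL 0 (M i.succ y + 1) - t i.succ * Lg y)| ≤ |κ| * K2 := by
        rw [abs_mul]
        exact mul_le_mul_of_nonneg_left (hLy i.succ) (abs_nonneg _)
      have b4 : |κ * (LL 0 (M i.castSucc y + 1) - t i.castSucc * Lg y)| ≤ |κ| * K2 := by
        rw [abs_mul]
        exact mul_le_mul_of_nonneg_left (hLy i.castSucc) (abs_nonneg _)
      have b3' := abs_le.mp b3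
      have b4' := abs_le.mp b4
      rw [abs_le]
      constructor <;> linarith [b1.1, b1.2, b2.1, b2.2, b3'.1, b3'.2, b4'.1, b4'.2]
    have h3 : |w i / √((t i.succ - t i.castSucc) * Lg y)| =
        |w i| / √(t i.succ - t i.castSucc) / √(Lg y) := by
      rw [abs_div, h1, abs_of_nonneg (by positivity : 0 ≤ √(t i.succ - t i.castSucc) * √(Lg y)),
        ← div_div]
    rw [h3]
    calc |w i| / √(t i.succ - t i.castSucc) / √(Lg y) * _ ≤
        |w i| / √(t i.succ - t i.castSucc) / √(Lg y) * (2 * K0 + 2 * |κ| * K2) := by gcongr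
      _ = |w i| / √(t i.succ - t i.castSucc) * ((2 * K0 + 2 * |κ| * K2) / √(Lg y)) := by ring

end Pool.Agent.U62.BM
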