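import Pool.Agent.U62.BM.Cut
import Pool.Agent.X280.BP.GaussFam

/-!
# Almost all members: a uniform bound with a rate
-/

set_option autoImplicit false
set_option linter.unusedSectionVars false

namespace Pool.Agent.U62.BM

open Finset Filter Topology Pool.Agent.Y722.HS Pool.Agent.X280.BP MeasureTheory ProbabilityTheory

variable {ι : Type} [Fintype ι] [DecidableEq ι] {Z : ∀ p : ℕ, (ι → ZMod p) → ℝ} {B : ℝ}

/-- The rate `(1 + l)^(1/2) (1 + log (1 + l))^(1/4 + δ)`. -/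
noncomputable def rt (δ l : ℝ) : ℝ := √(1 + l) * (1 + Real.log (1 + l)) ^ (1 / 4 + δ)

theorem rt_one_le {δ l : ℝ} (hδ : 0 < δ) (hl : 0 ≤ l) : 1 ≤ rt δ l := by
  unfold rt
  have h1 : 1 ≤ √(1 + l) := Real.one_le_sqrt.2 (by linarith)
  have h2 : 1 ≤ (1 + Real.log (1 + l)) ^ (1 / 4 + δ) :=
    Real.one_le_rpow (by have := Real.log_nonneg (show (1 : ℝ) ≤ 1 + l by linarith); linarith)
      (by linarith)
  nlinarith

theorem rt_mono {δ l l' : ℝ} (hδ : 0 < δ) (hl : 0 ≤ l) (h : l ≤ l') : rt δ l ≤ rt δ l' := by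
  unfold rt
  have h1 : Real.log (1 + l) ≤ Real.log (1 + l') := Real.log_le_log (by linarith) (by linarith)
  have h2 := Real.log_nonneg (show (1 : ℝ) ≤ 1 + l by linarith)
  gcongr

theorem rt_add {δ l C : ℝ} (hδ : 0 < δ) (hl : 0 ≤ l) (hC : 0 ≤ C) : rt δ (l + C) ≤ rt δ C * rt δ l := by
  unfold rt
  have h1 : 1 + (l + C) ≤ (1 + C) * (1 + l) := by nlinarith
  have h2 : √(1 + (l + C)) ≤ √(1 + C) * √(1 + l) := by
    rw [← Real.sqrt_mul (by linarith)]
    exact Real.sqrt_le_sqrt h1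
  have h3 := Real.log_nonneg (show (1 : ℝ) ≤ 1 + l by linarith)
  have h4 := Real.log_nonneg (show (1 : ℝ) ≤ 1 + C by linarith)
  have h5 : Real.log (1 + (l + C)) ≤ Real.log (1 + C) + Real.log (1 + l) := by
    rw [← Real.log_mul (by linarith) (by linarith)]
    exact Real.log_le_log (by linarith) h1
  have h6 : 1 + Real.log (1 + (l + C)) ≤ (1 + Real.log (1 + C)) * (1 + Real.log (1 + l)) := by
    nlinarith
  have h7 : 0 ≤ 1 + Real.log (1 + (l + C)) := by
    have := Real.log_nonneg (show (1 : ℝ) ≤ 1 + (l + C) by linarith)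
    linarith
  have h8 : (1 + Real.log (1 + (l + C))) ^ (1 / 4 + δ) ≤
      (1 + Real.log (1 + C)) ^ (1 / 4 + δ) * (1 + Real.log (1 + l)) ^ (1 / 4 + δ) := by
    rw [← Real.mul_rpow (by linarith) (by linarith)]
    exact Real.rpow_le_rpow h7 h6 (by linarith)
  calc √(1 + (l + C)) * (1 + Real.log (1 + (l + C))) ^ (1 / 4 + δ) ≤
      (√(1 + C) * √(1 + l)) * ((1 + Real.log (1 + C)) ^ (1 / 4 + δ) *
        (1 + Real.log (1 + l)) ^ (1 / 4 + δ)) := by gcongr
    _ = _ := by ring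

open Classical in
theorem rate_sys (h : Sys Z B) {δ : ℝ} (hδ : 0 < δ) : ∃ K : ℝ, 0 ≤ K ∧ ∀ A : ℝ, 0 < A →
    ∀ x H : ℕ, 2 ^ Fintype.card ι * x ^ 10 ≤ 2 * H + 1 →
    (((Pool.Agent.Y722.HS.box ι H).filter
      (fun c => ∃ y : ℕ, y ≤ x ∧ A * rt δ (LL 0 y) < |SS Z 0 y c|)).card : ℝ) ≤
      K / A ^ 4 * (2 * H + 1 : ℝ) ^ Fintype.card ι := by
  have hB0 : 0 < B := lt_of_lt_of_le one_pos h.one_le
  set e : ℝ := 1 + 4 * δ with he
  have hsum : Summable (fun i : ℕ => 1 / ((i : ℝ) + 1) ^ e) := by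
    have h1 := (summable_nat_add_iff (f := fun n : ℕ => 1 / (n : ℝ) ^ e) 1).2
      (Real.summable_one_div_nat_rpow.2 (by rw [he]; linarith))
    simpa using h1
  set T : ℝ := ∑' i : ℕ, 1 / ((i : ℝ) + 1) ^ e with hT
  have hT0 : 0 ≤ T := tsum_nonneg fun i => by positivity
  refine ⟨2916 * (91 * B ^ 4) * 4 * 2 ^ e * T, by positivity, fun A hA x H hx => ?_⟩
  have hch : ∀ i : ℕ, ∃ M : (ι → ℤ) → ℝ, EB H M ≤ 2916 * (91 * B ^ 4) * ((2 : ℝ) ^ (i + 1)) ^ 2 ∧
      (∀ c, 0 ≤ M c) ∧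
      ∀ c t, t ≤ x → 1 + LL 0 t < 2 ^ (i + 1) → SS Z 0 t c ^ 4 ≤ M c := by
    intro i
    set P : ℕ → Prop := fun y => 1 + LL 0 y < 2 ^ (i + 1) with hP
    have hP0 : P 0 := by
      rw [hP]
      have : LL 0 0 = 0 := by simp [LL]
      simp only [this]
      have : (1 : ℝ) < 2 ^ (i + 1) := one_lt_pow₀ (by norm_num) (by omega)
      linarith
    set b := Nat.findGreatest P x with hb
    have hbx : b ≤ x := Nat.findGreatest_le x
    have hPb : P b := Nat.findGreatest_spec (P := P) (Nat.zero_le x) hP0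
    obtain ⟨M, h1, h2⟩ := h.max hbx hx
    refine ⟨M, h1.trans ?_, fun c => ?_, fun c t ht hlt => h2 c t ?_⟩
    · have h3 : LL 0 b ^ 2 ≤ ((2 : ℝ) ^ (i + 1)) ^ 2 := by
        apply pow_le_pow_left₀ (LL_nonneg _ _)
        have : 1 + LL 0 b < 2 ^ (i + 1) := hPb
        linarith
      exact mul_le_mul_of_nonneg_left h3 (by positivity)
    · have := h2 c 0 (Nat.zero_le _)
      refine le_trans ?_ this
      positivity
    · exact Nat.le_findGreatest ht hlt
  choose M hM1 hM0 hM2 using hch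
  obtain ⟨N, hN⟩ : ∃ N : ℕ, 1 + LL 0 x < 2 ^ N := pow_unbounded_of_one_lt _ (by norm_num)
  set lam : ℕ → ℝ := fun i => A ^ 4 * ((2 : ℝ) ^ i) ^ 2 * (((i : ℝ) + 1) / 2) ^ e with hlam
  have hlam0 : ∀ i, 0 < lam i := fun i => by rw [hlam]; positivity
  set G : (ι → ℤ) → ℝ := fun c => ∑ i ∈ range N, M i c / lam i with hG
  have hG0 : ∀ c, 0 ≤ G c := fun c => Finset.sum_nonneg fun i _ =>
    div_nonneg (hM0 i c) (hlam0 i).le
  have hbad : ∀ c, (∃ y : ℕ, y ≤ x ∧ A * rt δ (LL 0 y) < |SS Z 0 y c|) → 1 ≤ G c := by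
    rintro c ⟨y, hy2, hy3⟩
    have hl0 := LL_nonneg 0 y
    have h1 : 1 ≤ 1 + LL 0 y := by linarith
    obtain ⟨i, hi1, hi2⟩ := exists_nat_pow_near h1 (by norm_num : (1 : ℝ) < 2)
    have hiN : i < N := by
      by_contra hcon
      push Not at hcon
      have h2 : (2 : ℝ) ^ N ≤ 2 ^ i := pow_le_pow_right₀ (by norm_num) hcon
      have h3 := LL_mono 0 hy2
      linarith
    have h4 := hM2 i c y hy2 hi2
    have hlog : (i : ℝ) * Real.log 2 ≤ Real.log (1 + LL 0 y) := by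
      rw [← Real.log_pow]
      exact Real.log_le_log (by positivity) hi1
    have hlog2 : ((i : ℝ) + 1) / 2 ≤ 1 + Real.log (1 + LL 0 y) := by
      have h5 := Real.log_two_gt_d9
      have hi0 : (0 : ℝ) ≤ i := Nat.cast_nonneg i
      nlinarith
    have h5 : lam i ≤ SS Z 0 y c ^ 4 := by
      have h6 : (A * rt δ (LL 0 y)) ^ 4 ≤ |SS Z 0 y c| ^ 4 := by
        apply pow_le_pow_left₀ _ hy3.le
        have := rt_one_le hδ hl0
        positivity
      rw [show |SS Z 0 y c| ^ 4 = SS Z 0 y c ^ 4 by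
        rw [← abs_pow, abs_of_nonneg (by positivity)]] at h6
      refine le_trans ?_ h6
      rw [hlam, mul_pow]
      unfold rt
      rw [mul_pow]
      have e1 : √(1 + LL 0 y) ^ 4 = (1 + LL 0 y) ^ 2 := by
        rw [show (4 : ℕ) = 2 * 2 by norm_num, pow_mul, Real.sq_sqrt (by linarith)]
      have e2 : ((1 + Real.log (1 + LL 0 y)) ^ (1 / 4 + δ)) ^ 4 = (1 + Real.log (1 + LL 0 y)) ^ e := by
        rw [← Real.rpow_natCast, ← Real.rpow_mul (by
          have := Real.log_nonneg h1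
          linarith)]
        congr 1
        rw [he]
        push_cast
        ring
      rw [e1, e2]
      calc A ^ 4 * ((2 : ℝ) ^ i) ^ 2 * (((i : ℝ) + 1) / 2) ^ e =
          A ^ 4 * (((2 : ℝ) ^ i) ^ 2 * (((i : ℝ) + 1) / 2) ^ e) := by ring
        _ ≤ A ^ 4 * ((1 + LL 0 y) ^ 2 * (1 + Real.log (1 + LL 0 y)) ^ e) := by
          gcongr
    have h8 : 1 ≤ M i c / lam i := by
      rw [le_div_iff₀ (hlam0 i), one_mul]
      exact h5.trans h4
    exact h8.trans (Finset.single_le_sum (f := fun i => M i c / lam i)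
      (fun i _ => div_nonneg (hM0 i c) (hlam0 i).le) (Finset.mem_range.mpr hiN))
  have hcard : (((Pool.Agent.Y722.HS.box ι H).filter
      (fun c => ∃ y : ℕ, y ≤ x ∧ A * rt δ (LL 0 y) < |SS Z 0 y c|)).card : ℝ) ≤
      EB H G * (2 * H + 1 : ℝ) ^ Fintype.card ι := by
    unfold EB
    rw [div_mul_cancel₀ _ (by positivity)]
    rw [Finset.card_filter]
    push_cast
    refine Finset.sum_le_sum fun c _ => ?_
    split_ifs with hc
    · exact hbad c hc
    · exact hG0 c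
  have hEG : EB H G ≤ 2916 * (91 * B ^ 4) * 4 * 2 ^ e * T / A ^ 4 := by
    rw [hG, EB_sum]
    have h1 : ∀ i ∈ range N, EB H (fun c => M i c / lam i) ≤
        2916 * (91 * B ^ 4) * 4 * 2 ^ e / A ^ 4 * (1 / ((i : ℝ) + 1) ^ e) := by
      intro i _
      have e1 : EB H (fun c => M i c / lam i) = EB H (M i) / lam i := by
        unfold EB
        rw [← Finset.sum_div]
        ring
      rw [e1, div_le_iff₀ (hlam0 i)]
      refine (hM1 i).trans (le_of_eq ?_)
      rw [hlam]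
      simp only
      rw [Real.div_rpow (by positivity) (by norm_num)]
      have hp1 : (0 : ℝ) < ((i : ℝ) + 1) ^ e := by positivity
      have hp2 : (0 : ℝ) < (2 : ℝ) ^ e := by positivity
      field_simp
      ring
    refine (Finset.sum_le_sum h1).trans ?_
    rw [← Finset.mul_sum]
    have h2 : ∑ i ∈ range N, 1 / ((i : ℝ) + 1) ^ e ≤ T :=
      hsum.sum_le_tsum _ (fun n _ => by positivity)
    calc 2916 * (91 * B ^ 4) * 4 * 2 ^ e / A ^ 4 * ∑ i ∈ range N, 1 / ((i : ℝ) + 1) ^ e ≤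
        2916 * (91 * B ^ 4) * 4 * 2 ^ e / A ^ 4 * T := by gcongr
      _ = 2916 * (91 * B ^ 4) * 4 * 2 ^ e * T / A ^ 4 := by ring
  exact hcard.trans (mul_le_mul_of_nonneg_right hEG (by positivity))

open Classical in
/-- **Almost all members, uniformly, with a rate.** -/
theorem rate_abs (hS : Sys Z B) (κ K0 : ℝ) (hK0 : 0 ≤ K0) (Q : ℕ → (ι → ℤ) → ℝ)
    (hnear : ∀ (y : ℕ) (c : ι → ℤ), |Q y c + SS Z 0 (y + 1) c - κ * LL 0 (y + 1)| ≤ K0)
    {δ : ℝ} (hδ : 0 < δ) : ∃ K : ℝ, 0 ≤ K ∧ ∀ A : ℝ, 0 < A → ∀ H : ℕ,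
    (((Pool.Agent.Y722.HS.box ι H).filter (fun c => ∃ y : ℕ, 3 ≤ y ∧ y ^ 11 ≤ H ∧
      A * rt δ (Lg y) < |Q y c - κ * Lg y|)).card : ℝ) ≤
      K / A ^ 4 * (2 * H + 1 : ℝ) ^ Fintype.card ι := by
  have hB0 : 0 < B := lt_of_lt_of_le one_pos hS.one_le
  obtain ⟨C1, hC1, hLL⟩ := LL_Lg
  obtain ⟨K, hK, hrate⟩ := rate_sys hS hδ
  set n := Fintype.card ι with hn
  set Y1 : ℕ := 512 * 2 ^ n with hY1
  -- the bound for small `y`
  set c1 : ℝ := B * (Y1 + 1) with hc1
  have hc10 : 0 ≤ c1 := by positivity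
  have hsmall : ∀ y : ℕ, y ≤ Y1 → ∀ c, |SS Z 0 y c| ≤ c1 := by
    intro y hy c
    unfold SS
    refine (Finset.abs_sum_le_sum_abs _ _).trans ?_
    have h1 : ∀ p ∈ (Ico 0 y).filter Nat.Prime, |Z p (red p c)| ≤ B := by
      intro p hp
      have hpp := (Finset.mem_filter.mp hp).2
      refine (hS.bd p hpp _).trans ?_
      have hp1 : (1 : ℝ) ≤ √(p : ℝ) := Real.one_le_sqrt.2 (by exact_mod_cast hpp.one_lt.le)
      exact div_le_self hB0.le hp1
    refine (Finset.sum_le_sum h1).trans ?_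
    rw [Finset.sum_const, nsmul_eq_mul, hc1, mul_comm B]
    have h2 : (((Ico 0 y).filter Nat.Prime).card : ℝ) ≤ Y1 := by
      have h3 := Finset.card_filter_le (Ico 0 y) Nat.Prime
      rw [Nat.card_Ico, Nat.sub_zero] at h3
      exact_mod_cast h3.trans hy
    gcongr
    linarith
  set c0 : ℝ := K0 + |κ| * C1 + c1 with hc0
  have hc00 : 0 ≤ c0 := by positivity
  set K4 : ℝ := rt δ C1 with hK4
  have hK41 : 1 ≤ K4 := rt_one_le hδ hC1
  have hK40 : 0 < K4 := by linarith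
  refine ⟨(2 * c0) ^ 4 + K * (2 * K4) ^ 4, by positivity, fun A hA H => ?_⟩
  have hN0 : (0 : ℝ) < (2 * H + 1 : ℝ) ^ n := by positivity
  rcases lt_or_ge A (2 * c0) with hlt | hge
  · have h1 : (((Pool.Agent.Y722.HS.box ι H).filter (fun c => ∃ y : ℕ, 3 ≤ y ∧ y ^ 11 ≤ H ∧
        A * rt δ (Lg y) < |Q y c - κ * Lg y|)).card : ℝ) ≤ (2 * H + 1 : ℝ) ^ n := by
      rw [hn, ← card_box]
      exact_mod_cast Finset.card_filter_le _ _
    have h2 : 1 ≤ ((2 * c0) ^ 4 + K * (2 * K4) ^ 4) / A ^ 4 := by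
      rw [le_div_iff₀ (by positivity), one_mul]
      have h3 := pow_le_pow_left₀ hA.le hlt.le 4
      have h4 : 0 ≤ K * (2 * K4) ^ 4 := by positivity
      linarith
    nlinarith
  · set x0 := Nat.findGreatest (fun y => y ^ 11 ≤ H) H with hx0
    have hx0s : x0 ^ 11 ≤ H := Nat.findGreatest_spec (P := fun y => y ^ 11 ≤ H) (Nat.zero_le H)
      (by simp)
    have hle : ∀ y : ℕ, y ^ 11 ≤ H → y ≤ x0 := by
      intro y hy
      refine Nat.le_findGreatest ?_ hy
      exact (Nat.le_self_pow (by norm_num) y).trans hy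
    set A' : ℝ := A / (2 * K4) with hA'
    have hA'0 : 0 < A' := by positivity
    have hkey : ∀ (c : ι → ℤ) (y : ℕ), 3 ≤ y → A * rt δ (Lg y) < |Q y c - κ * Lg y| →
        A' * rt δ (LL 0 (y + 1)) < |SS Z 0 (y + 1) c| ∧ Y1 ≤ y := by
      intro c y hy3 hy
      have hLg := Lg_pos hy3
      have hr1 := rt_one_le hδ hLg.le
      have h1 := hnear y c
      have h2 := hLL y hy3
      have h3 : |Q y c - κ * Lg y| ≤ |SS Z 0 (y + 1) c| + (K0 + |κ| * C1) := by
        have e : Q y c - κ * Lg y = (Q y c + SS Z 0 (y + 1) c - κ * LL 0 (y + 1)) -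
          SS Z 0 (y + 1) c + κ * (LL 0 (y + 1) - Lg y) := by ring
        rw [e]
        have h4 := abs_add_le ((Q y c + SS Z 0 (y + 1) c - κ * LL 0 (y + 1)) -
          SS Z 0 (y + 1) c) (κ * (LL 0 (y + 1) - Lg y))
        have h5 := abs_sub (Q y c + SS Z 0 (y + 1) c - κ * LL 0 (y + 1)) (SS Z 0 (y + 1) c)
        have h6 : |κ * (LL 0 (y + 1) - Lg y)| ≤ |κ| * C1 := by
          rw [abs_mul]
          exact mul_le_mul_of_nonneg_left h2 (abs_nonneg _)
        linarith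
      have h7 : A * rt δ (Lg y) - (K0 + |κ| * C1) < |SS Z 0 (y + 1) c| := by linarith
      have h8 : A / 2 * rt δ (Lg y) ≤ A * rt δ (Lg y) - c0 := by nlinarith
      have hc0' : K0 + |κ| * C1 ≤ c0 := by rw [hc0]; linarith
      refine ⟨?_, ?_⟩
      · have h9 : rt δ (LL 0 (y + 1)) ≤ K4 * rt δ (Lg y) := by
          refine (rt_mono hδ (LL_nonneg _ _) ?_).trans (rt_add hδ hLg.le hC1)
          have := (abs_le.mp h2).2
          linarith
        calc A' * rt δ (LL 0 (y + 1)) ≤ A' * (K4 * rt δ (Lg y)) := by gcongr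
          _ = A / 2 * rt δ (Lg y) := by rw [hA']; field_simp
          _ ≤ A * rt δ (Lg y) - c0 := h8
          _ ≤ A * rt δ (Lg y) - (K0 + |κ| * C1) := by linarith
          _ < _ := h7
      · by_contra hcon
        push Not at hcon
        have h10 := hsmall (y + 1) (by omega) c
        have h11 : A * rt δ (Lg y) < c0 := by
          rw [hc0]
          linarith
        nlinarith
    by_cases hYx : Y1 ≤ x0
    · have hcond : 2 ^ Fintype.card ι * (x0 + 1) ^ 10 ≤ 2 * H + 1 := by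
        rw [← hn]
        have h1 : (x0 + 1) ^ 10 ≤ (2 * x0) ^ 10 := by
          apply Nat.pow_le_pow_left
          have h3 := Nat.one_le_two_pow (n := n)
          omega
        calc 2 ^ n * (x0 + 1) ^ 10 ≤ 2 ^ n * (2 * x0) ^ 10 := Nat.mul_le_mul_left _ h1
          _ = 2 * (512 * 2 ^ n) * x0 ^ 10 := by ring
          _ ≤ 2 * x0 * x0 ^ 10 := by gcongr
          _ = 2 * x0 ^ 11 := by ring
          _ ≤ 2 * H + 1 := by omega
      have hu := hrate A' hA'0 (x0 + 1) H hcond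
      have hsub : ((Pool.Agent.Y722.HS.box ι H).filter (fun c => ∃ y : ℕ, 3 ≤ y ∧ y ^ 11 ≤ H ∧
          A * rt δ (Lg y) < |Q y c - κ * Lg y|)) ⊆
          (Pool.Agent.Y722.HS.box ι H).filter
            (fun c => ∃ y : ℕ, y ≤ x0 + 1 ∧ A' * rt δ (LL 0 y) < |SS Z 0 y c|) := by
        intro c hc
        rw [Finset.mem_filter] at hc ⊢
        obtain ⟨hcb, y, hy3, hyH, hy⟩ := hc
        exact ⟨hcb, y + 1, by have := hle y hyH; omega, (hkey c y hy3 hy).1⟩
      have h1 : (((Pool.Agent.Y722.HS.box ι H).filter (fun c => ∃ y : ℕ, 3 ≤ y ∧ y ^ 11 ≤ H ∧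
          A * rt δ (Lg y) < |Q y c - κ * Lg y|)).card : ℝ) ≤
          K / A' ^ 4 * (2 * H + 1 : ℝ) ^ Fintype.card ι :=
        le_trans (by exact_mod_cast Finset.card_le_card hsub) hu
      refine h1.trans ?_
      rw [← hn]
      apply mul_le_mul_of_nonneg_right _ hN0.le
      have e : K / A' ^ 4 = K * (2 * K4) ^ 4 / A ^ 4 := by
        rw [hA']
        field_simp
      rw [e]
      gcongr
      have : 0 ≤ (2 * c0) ^ 4 := by positivity
      linarith
    · have hempty : ((Pool.Agent.Y722.HS.box ι H).filter (fun c => ∃ y : ℕ, 3 ≤ y ∧ y ^ 11 ≤ H ∧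
          A * rt δ (Lg y) < |Q y c - κ * Lg y|)) = ∅ := by
        apply Finset.filter_eq_empty_iff.2
        rintro c _ ⟨y, hy3, hyH, hy⟩
        have h1 := (hkey c y hy3 hy).2
        have h2 := hle y hyH
        omega
      rw [hempty, Finset.card_empty]
      push_cast
      positivity

end Pool.Agent.U62.BM
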