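import Pool.Agent.X280.BP.Tri
import Mathlib.Probability.Distributions.Gaussian.Multivariate
import Mathlib.MeasureTheory.Measure.LevyConvergence

/-!
# Laws of vector valued statistics on boxes and their characteristic functions
-/

set_option autoImplicit false
set_option linter.unusedSectionVars false

namespace Pool.Agent.U62.BM

open Finset Filter Topology Pool.Agent.Y722.HS Pool.Agent.X280.BP MeasureTheory ProbabilityTheory

variable {ι : Type} [Fintype ι] [DecidableEq ι]

section
variable {E : Type} [MeasurableSpace E]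

/-- The law of a function of the integral vectors in the box. -/
noncomputable def lawE (H : ℕ) (T : (ι → ℤ) → E) : Measure E :=
  ∑ c ∈ Pool.Agent.Y722.HS.box ι H, ENNReal.ofReal (1 / (2 * H + 1 : ℝ) ^ Fintype.card ι) •
    Measure.dirac (T c)

theorem lawE_apply (H : ℕ) (T : (ι → ℤ) → E) (S : Set E) (hS : MeasurableSet S)
    [DecidablePred fun c => T c ∈ S] :
    lawE H T S = ENNReal.ofReal (((Pool.Agent.Y722.HS.box ι H).filter (fun c => T c ∈ S)).card /
      (2 * H + 1 : ℝ) ^ Fintype.card ι) := by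
  classical
  unfold lawE
  rw [Measure.finsetSum_apply]
  have h1 : ∀ c ∈ Pool.Agent.Y722.HS.box ι H,
      (ENNReal.ofReal (1 / (2 * H + 1 : ℝ) ^ Fintype.card ι) • Measure.dirac (T c)) S =
      ENNReal.ofReal (if T c ∈ S then 1 / (2 * H + 1 : ℝ) ^ Fintype.card ι else 0) := by
    intro c _
    rw [Measure.smul_apply, Measure.dirac_apply' _ hS, smul_eq_mul]
    by_cases h : T c ∈ S
    · simp [h]
    · simp [h]
  rw [Finset.sum_congr rfl h1, ← ENNReal.ofReal_sum_of_nonneg (fun c _ => by positivity)]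
  congr 1
  rw [Finset.sum_ite, Finset.sum_const_zero, add_zero, Finset.sum_const, nsmul_eq_mul]
  ring

instance lawE_prob (H : ℕ) (T : (ι → ℤ) → E) : IsProbabilityMeasure (lawE H T) := by
  classical
  constructor
  rw [lawE_apply H T Set.univ MeasurableSet.univ]
  have : ((Pool.Agent.Y722.HS.box ι H).filter (fun c => T c ∈ Set.univ)) =
      Pool.Agent.Y722.HS.box ι H := by
    simp
  rw [this, card_box, div_self (by positivity), ENNReal.ofReal_one]

end

section
variable {k : ℕ}

theorem lawE_char (H : ℕ) (T : (ι → ℤ) → EuclideanSpace ℝ (Fin k)) (w : EuclideanSpace ℝ (Fin k)) :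
    charFun (lawE H T) w =
      EBc H (fun c => Complex.exp ((∑ i, w i * T c i : ℝ) * Complex.I)) := by
  rw [charFun_apply]
  unfold lawE
  rw [integral_finsetSum_measure]
  · unfold EBc
    rw [Finset.sum_div]
    refine Finset.sum_congr rfl fun c _ => ?_
    rw [integral_smul_measure, integral_dirac, ENNReal.toReal_ofReal (by positivity)]
    rw [Complex.real_smul, PiLp.inner_apply]
    have e : (∑ i, inner ℝ ((T c).ofLp i) (w.ofLp i) : ℝ) = ∑ i, w i * T c i := by
      refine Finset.sum_congr rfl fun i _ => ?_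
      simp
    rw [e]
    push_cast
    ring
  · intro c _
    apply Integrable.smul_measure _ ENNReal.ofReal_ne_top
    exact integrable_dirac (by simp)

/-- The standard normal law of `ℝ^k`. -/
noncomputable def nor (k : ℕ) : Measure (Fin k → ℝ) := Measure.pi (fun _ => gaussianReal 0 1)

instance (k : ℕ) : IsProbabilityMeasure (nor k) := by
  unfold nor
  infer_instance

/-- **The law from the characteristic functions**, several variables. -/
theorem law_vec (X : ℕ → (ι → ℤ) → (Fin k → ℝ))
    (hchar : ∀ (w : Fin k → ℝ) (ε : ℝ), 0 < ε → ∃ K : ℕ, ∀ᶠ y : ℕ in atTop, ∀ H : ℕ, y ^ K ≤ H →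
      ‖EBc H (fun c => Complex.exp ((∑ i, w i * X y c i : ℝ) * Complex.I)) -
        (Real.exp (-((∑ i, w i ^ 2) / 2)) : ℝ)‖ ≤ ε)
    (S : Set (Fin k → ℝ)) (hS : MeasurableSet S) (hS0 : nor k (frontier S) = 0)
    {ε : ℝ} (hε : 0 < ε) :
    ∃ K y0 : ℕ, ∀ y H : ℕ, y0 ≤ y → y ^ K ≤ H →
      |(lawE H (X y)).real S - (nor k).real S| ≤ ε := by
  by_contra hcon
  push Not at hcon
  choose ys Hs h1 h2 h3 using fun j : ℕ => hcon j j
  set E := EuclideanSpace ℝ (Fin k) with hE
  set Y : ℕ → (ι → ℤ) → E := fun y c => WithLp.toLp 2 (X y c) with hY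
  set μ : ℕ → ProbabilityMeasure E := fun j => ⟨lawE (Hs j) (Y (ys j)), inferInstance⟩
    with hμ
  set ν' : ProbabilityMeasure E := ⟨stdGaussian E, inferInstance⟩ with hν
  have hys : Tendsto ys atTop atTop := tendsto_atTop_mono h1 tendsto_id
  have hconv : Tendsto μ atTop (𝓝 ν') := by
    rw [ProbabilityMeasure.tendsto_iff_tendsto_charFun]
    intro t
    rw [hν]
    change Tendsto (fun j => charFun (lawE (Hs j) (Y (ys j))) t) atTop
      (𝓝 (charFun (stdGaussian E) t))
    rw [Metric.tendsto_atTop]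
    intro δ hδ
    obtain ⟨K, hK⟩ := hchar (fun i => t i) (δ / 2) (half_pos hδ)
    have hK2 := hys.eventually hK
    rw [eventually_atTop] at hK2
    obtain ⟨N, hN⟩ := hK2
    refine ⟨max N (K + 1), fun j hj => ?_⟩
    rw [lawE_char, dist_eq_norm]
    have hj1 : N ≤ j := (le_max_left _ _).trans hj
    have hj2 : K + 1 ≤ j := (le_max_right _ _).trans hj
    have hpow : ys j ^ K ≤ Hs j := by
      refine le_trans ?_ (h2 j)
      exact Nat.pow_le_pow_right (by have := h1 j; omega) (by omega)
    have h4 := hN j hj1 (Hs j) hpow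
    have e : charFun (stdGaussian E) t = ((Real.exp (-((∑ i, (t i) ^ 2) / 2)) : ℝ) : ℂ) := by
      rw [charFun_stdGaussian, ← Complex.ofReal_pow, EuclideanSpace.real_norm_sq_eq]
      push_cast
      congr 1
      ring
    rw [e]
    exact lt_of_le_of_lt h4 (by linarith)
  -- the set
  set Φ : E ≃ₜ (Fin k → ℝ) := (PiLp.continuousLinearEquiv 2 ℝ (fun _ : Fin k => ℝ)).toHomeomorph
    with hΦ
  have hΦapp : ∀ x : E, Φ x = x.ofLp := fun x => rfl
  set S' : Set E := Φ ⁻¹' S with hS'
  have hS'm : MeasurableSet S' := Φ.continuous.measurable hS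
  have hstd : ∀ A : Set (Fin k → ℝ), MeasurableSet A → stdGaussian E (Φ ⁻¹' A) = nor k A := by
    intro A hA
    have h8 := map_pi_eq_stdGaussian (ι := Fin k)
    have h9 : (Measure.map (WithLp.toLp 2) (nor k)) (Φ ⁻¹' A) = nor k A := by
      rw [Measure.map_apply (by fun_prop) (Φ.continuous.measurable hA)]
      rfl
    rw [← h9]
    exact (congrArg (fun m : Measure (EuclideanSpace ℝ (Fin k)) => m (Φ ⁻¹' A)) h8).symm
  have hfr : (ν' : Measure E) (frontier S') = 0 := by
    rw [hS', ← Φ.preimage_frontier]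
    change stdGaussian E (Φ ⁻¹' frontier S) = 0
    rw [hstd _ isClosed_frontier.measurableSet, hS0]
  have h4 := ProbabilityMeasure.tendsto_measure_of_null_frontier_of_tendsto' hconv hfr
  have h5 : Tendsto (fun j => (lawE (Hs j) (Y (ys j))).real S') atTop
      (𝓝 ((stdGaussian E).real S')) :=
    (ENNReal.tendsto_toReal (measure_ne_top _ _)).comp h4
  rw [Metric.tendsto_atTop] at h5
  obtain ⟨N, hN⟩ := h5 ε hε
  have h6 := hN N le_rfl
  rw [Real.dist_eq] at h6
  have h7 := h3 N
  have e1 : (lawE (Hs N) (Y (ys N))).real S' = (lawE (Hs N) (X (ys N))).real S := by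
    classical
    rw [measureReal_def, measureReal_def, lawE_apply _ _ _ hS'm, lawE_apply _ _ _ hS]
    rfl
  have e2 : (stdGaussian E).real S' = (nor k).real S := by
    rw [measureReal_def, measureReal_def, hstd S hS]
  rw [e1, e2] at h6
  linarith

end

end Pool.Agent.U62.BM
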